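import Mathlib

set_option autoImplicit false

namespace Pool.Agent.H865S

open Set

universe u

/-- Erdős–Tarski style decomposition: a subset `P` of a partial order in which every infinite subset
has two distinct comparable members is a finite union of nonempty up-directed subsets. -/
theorem directed_decomp {α : Type u} [PartialOrder α] (P : Set α)
    (hP : ∀ L : Set α, L ⊆ P → L.Infinite → ∃ a ∈ L, ∃ c ∈ L, a ≠ c ∧ a ≤ c) :
    ∃ K : Set (Set α), K.Finite ∧ (∀ I ∈ K, I ⊆ P ∧ I.Nonempty ∧ DirectedOn (· ≤ ·) I) ∧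
      ⋃₀ K = P := by
  classical
  -- no sequence of pairwise incompatible elements
  have hseq : ∀ f : ℕ → α, (∀ n, f n ∈ P) → (∀ i j, i < j → ¬ f i ≤ f j) →
      (∀ i j, i < j → ¬ f j ≤ f i) → False := by
    intro f hf h1 h2
    have hinj : Function.Injective f := by
      intro i j hij
      rcases lt_trichotomy i j with h | h | h
      · exact absurd hij.le (h1 i j h)
      · exact h
      · exact absurd hij.ge (h1 j i h)
    obtain ⟨a, ⟨i, rfl⟩, c, ⟨j, rfl⟩, hne, hle⟩ :=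
      hP (range f) (by rintro _ ⟨n, rfl⟩; exact hf n) (infinite_range_of_injective hinj)
    rcases lt_trichotomy i j with h | h | h
    · exact h1 i j h hle
    · exact hne (by rw [h])
    · exact h2 j i h hle
  let good : α → Prop := fun a => a ∈ P ∧ ∀ b ∈ P, ∀ c ∈ P, a ≤ b → a ≤ c → ∃ d ∈ P, b ≤ d ∧ c ≤ d
  have hgood : ∀ x ∈ P, ∃ a, good a ∧ x ≤ a := by
    intro x hx
    by_contra hcon
    push Not at hcon
    have hstep : ∀ y : {y // y ∈ P ∧ x ≤ y}, ∃ b : α, ∃ c : {y // y ∈ P ∧ x ≤ y},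
        b ∈ P ∧ y.1 ≤ b ∧ y.1 ≤ c.1 ∧ ∀ d ∈ P, b ≤ d → ¬ c.1 ≤ d := by
      rintro ⟨y, hy, hxy⟩
      by_contra h
      push Not at h
      refine hcon y ⟨hy, ?_⟩ hxy
      intro b hb c hc hyb hyc
      obtain ⟨d, hd, h1, h2⟩ := h b ⟨c, hc, hxy.trans hyc⟩ hb hyb hyc
      exact ⟨d, hd, h1, h2⟩
    choose b c hb hyb hyc hinc using hstep
    let s : ℕ → {y // y ∈ P ∧ x ≤ y} := fun n => c^[n] ⟨x, hx, le_rfl⟩
    have hs : ∀ n, s (n+1) = c (s n) := fun n => by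
      simp only [s, Function.iterate_succ_apply']
    have hmono : Monotone (fun n => (s n).1) := by
      apply monotone_nat_of_le_succ
      intro n
      rw [hs n]
      exact hyc (s n)
    have hkey : ∀ i j, i < j → ∀ d ∈ P, b (s i) ≤ d → ¬ b (s j) ≤ d := by
      intro i j hij d hd h1 h2
      refine hinc (s i) d hd h1 ?_
      rw [← hs i]
      exact (hmono (Nat.succ_le_of_lt hij)).trans ((hyb (s j)).trans h2)
    refine hseq (fun n => b (s n)) (fun n => hb _) ?_ ?_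
    · intro i j hij h
      exact hkey i j hij _ (hb _) h le_rfl
    · intro i j hij h
      exact hkey i j hij _ (hb _) le_rfl h
  -- a finite set of good elements meeting every good element
  have hfin : ∃ F : Finset α, (∀ a ∈ F, good a) ∧ ∀ y, good y → ∃ a ∈ F, ∃ d ∈ P, a ≤ d ∧ y ≤ d := by
    by_contra hcon
    push Not at hcon
    obtain ⟨f, hf, hf'⟩ := exists_seq_of_forall_finset_exists good
      (fun a y => ∀ d ∈ P, a ≤ d → ¬ y ≤ d) (by
        intro s hs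
        obtain ⟨y, hy, h⟩ := hcon s hs
        exact ⟨y, hy, h⟩)
    refine hseq f (fun n => (hf n).1) ?_ ?_
    · intro i j hij h
      exact hf' i j hij _ (hf j).1 h le_rfl
    · intro i j hij h
      exact hf' i j hij _ (hf i).1 le_rfl h
  obtain ⟨F, hF, hF'⟩ := hfin
  refine ⟨(fun a => {x | x ∈ P ∧ ∃ y ∈ P, x ≤ y ∧ a ≤ y}) '' (F : Set α),
    F.finite_toSet.image _, ?_, ?_⟩
  · rintro _ ⟨a, ha, rfl⟩
    have hag := hF a ha
    refine ⟨fun x hx => hx.1, ⟨a, hag.1, a, hag.1, le_rfl, le_rfl⟩, ?_⟩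
    rintro x ⟨hx, y, hy, hxy, hay⟩ x' ⟨hx', y', hy', hxy', hay'⟩
    obtain ⟨d, hd, h1, h2⟩ := hag.2 y hy y' hy' hay hay'
    exact ⟨d, ⟨hd, d, hd, le_rfl, hay.trans h1⟩, hxy.trans h1, hxy'.trans h2⟩
  · apply subset_antisymm
    · rintro x ⟨_, ⟨a, _, rfl⟩, hx⟩
      exact hx.1
    · intro x hx
      obtain ⟨g, hg, hxg⟩ := hgood x hx
      obtain ⟨a, ha, d, hd, had, hgd⟩ := hF' g hg
      exact ⟨_, ⟨a, ha, rfl⟩, hx, d, hd, hxg.trans hgd, had⟩

/-- A family of sets has subinfinite rank: every infinite subfamily with a common point has two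
distinct comparable members. -/
def SubInf {X : Type u} (𝓑 : Set (Set X)) : Prop :=
  ∀ L : Set (Set X), L ⊆ 𝓑 → L.Infinite → (⋂₀ L).Nonempty → ∃ A ∈ L, ∃ C ∈ L, A ≠ C ∧ A ⊆ C

/-- Least-point decomposition: each subfamily `𝓓` of a family of subinfinite rank splits off a
point-finite collection of directed subfamilies, each with a common point, covering `⋃₀ 𝓓`. -/
theorem key_decomp {X : Type u} (𝓓 : Set (Set X)) (hD : SubInf 𝓓) :
    ∃ 𝒦 : Set (Set (Set X)), (∀ K ∈ 𝒦, K ⊆ 𝓓 ∧ K.Nonempty ∧ DirectedOn (· ⊆ ·) K ∧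
      (⋂₀ K).Nonempty) ∧ (∀ y ∈ ⋃₀ 𝓓, ∃ K ∈ 𝒦, y ∈ ⋃₀ K) ∧ ∀ p, {K ∈ 𝒦 | p ∈ ⋃₀ K}.Finite := by
  classical
  obtain ⟨_, _⟩ := exists_wellFoundedLT X
  have hmin : ∀ S : Set X, S.Nonempty → ∃ θ, IsLeast S θ := by
    intro S hS
    exact ⟨wellFounded_lt.min S hS, wellFounded_lt.min_mem S hS, fun a ha =>
      not_lt.mp (wellFounded_lt.not_lt_min S ha)⟩
  let Λ : X → Set X := fun y => {θ | ∃ D ∈ 𝓓, y ∈ D ∧ IsLeast D θ}
  let E : X → Set (Set X) := fun θ => {D | D ∈ 𝓓 ∧ IsLeast D θ ∧ ∃ y ∈ D, IsLeast (Λ y) θ}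
  have hE : ∀ θ, ∃ K : Set (Set (Set X)), K.Finite ∧
      (∀ I ∈ K, I ⊆ E θ ∧ I.Nonempty ∧ DirectedOn (· ≤ ·) I) ∧ ⋃₀ K = E θ := by
    intro θ
    apply directed_decomp
    intro L hL hinf
    exact hD L (fun D hDL => (hL hDL).1) hinf ⟨θ, fun D hDL => (hL hDL).2.1.1⟩
  choose K hKf hK hKE using hE
  refine ⟨⋃ θ, K θ, ?_, ?_, ?_⟩
  · intro I hI
    obtain ⟨θ, hI⟩ := mem_iUnion.mp hI
    obtain ⟨h1, h2, h3⟩ := hK θ I hI
    exact ⟨fun D hDI => (h1 hDI).1, h2, h3, ⟨θ, fun D hDI => (h1 hDI).2.1.1⟩⟩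
  · rintro y ⟨D₀, hD₀, hy⟩
    have hne : (Λ y).Nonempty := by
      obtain ⟨θ, hθ⟩ := hmin D₀ ⟨y, hy⟩
      exact ⟨θ, D₀, hD₀, hy, hθ⟩
    obtain ⟨θ, hθ⟩ := hmin _ hne
    obtain ⟨D, hDD, hyD, hDθ⟩ := hθ.1
    have : D ∈ ⋃₀ K θ := by
      rw [hKE θ]
      exact ⟨hDD, hDθ, y, hyD, hθ⟩
    obtain ⟨I, hI, hDI⟩ := this
    exact ⟨I, mem_iUnion.mpr ⟨θ, hI⟩, D, hDI, hyD⟩
  · intro p
    have hT : {θ | ∃ D ∈ E θ, p ∈ D}.Finite := by
      by_contra hinf
      have hch : ∀ θ : {θ | ∃ D ∈ E θ, p ∈ D}, ∃ D, D ∈ E θ.1 ∧ p ∈ D := by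
        rintro ⟨θ, D, hD1, hD2⟩
        exact ⟨D, hD1, hD2⟩
      choose D hDE hpD using hch
      have hinj : Function.Injective D := by
        intro θ θ' h
        have h1 := (hDE θ).2.1
        have h2 := (hDE θ').2.1
        rw [h] at h1
        exact Subtype.ext (h1.unique h2)
      have : Infinite {θ | ∃ D ∈ E θ, p ∈ D} := Set.infinite_coe_iff.mpr hinf
      obtain ⟨_, ⟨θ, rfl⟩, _, ⟨θ', rfl⟩, hne, hsub⟩ := hD (range D)
        (by rintro _ ⟨θ, rfl⟩; exact (hDE θ).1) (infinite_range_of_injective hinj)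
        ⟨p, by rintro _ ⟨θ, rfl⟩; exact hpD θ⟩
      have hθne : θ.1 ≠ θ'.1 := fun h => hne (by rw [Subtype.ext h])
      rcases lt_or_gt_of_ne hθne with h | h
      · -- θ < θ'
        have h1 : θ.1 ∈ D θ' := hsub (hDE θ).2.1.1
        exact absurd ((hDE θ').2.1.2 h1) (not_le.mpr h)
      · -- θ' < θ
        obtain ⟨y, hyD, hy⟩ := (hDE θ).2.2
        have h1 : θ'.1 ∈ Λ y := ⟨D θ', (hDE θ').1, hsub hyD, (hDE θ').2.1⟩
        exact absurd (hy.2 h1) (not_le.mpr h)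
    refine (hT.biUnion (fun θ _ => hKf θ)).subset ?_
    rintro I ⟨hI, D, hDI, hpD⟩
    obtain ⟨θ, hI⟩ := mem_iUnion.mp hI
    exact mem_biUnion (show θ ∈ {θ | ∃ D ∈ E θ, p ∈ D} from ⟨D, (hK θ I hI).1 hDI, hpD⟩) hI


section Tree

variable {X : Type u}

/-- `J` is directed, has a common point and consists of members of `𝓑'`. -/
structure Node (𝓑' : Set (Set X)) (J : Set (Set X)) : Prop where
  sub : J ⊆ 𝓑'
  ne : J.Nonempty
  dir : DirectedOn (· ⊆ ·) J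
  pt : (⋂₀ J).Nonempty

/-- The main covering theorem: every open family in a `T1` space with a base of subinfinite rank
has a point-finite open refinement with the same union. -/
theorem refinement [TopologicalSpace X] [T1Space X] (B : Set (Set X))
    (hB : TopologicalSpace.IsTopologicalBasis B) (hrank : SubInf B)
    (U : Set (Set X)) (hU : ∀ u ∈ U, IsOpen u) :
    ∃ V : Set (Set X), (∀ v ∈ V, IsOpen v) ∧ ⋃₀ V = ⋃₀ U ∧ (∀ v ∈ V, ∃ u ∈ U, v ⊆ u) ∧
      ∀ x : X, {v ∈ V | x ∈ v}.Finite := by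
  classical
  -- the members of the base contained in a member of `U`
  let B' : Set (Set X) := {D | D ∈ B ∧ ∃ u ∈ U, D ⊆ u}
  have hB'o : ∀ D ∈ B', IsOpen D := fun D hD => hB.isOpen hD.1
  have hB'U : ⋃₀ B' = ⋃₀ U := by
    apply subset_antisymm
    · rintro x ⟨D, ⟨_, u, hu, hDu⟩, hx⟩
      exact ⟨u, hu, hDu hx⟩
    · rintro x ⟨u, hu, hx⟩
      obtain ⟨D, hD, hxD, hDu⟩ := hB.exists_subset_of_mem_open hx (hU u hu)
      exact ⟨D, ⟨hD, u, hu, hDu⟩, hxD⟩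
  have hmono : ∀ 𝓓 : Set (Set X), 𝓓 ⊆ B' → SubInf 𝓓 := fun 𝓓 h L hL =>
    hrank L (fun D hD => (h (hL hD)).1)
  have hkd : ∀ 𝓓 : Set (Set X), ∃ 𝒦 : Set (Set (Set X)), 𝓓 ⊆ B' → (∀ K ∈ 𝒦, K ⊆ 𝓓 ∧ K.Nonempty ∧
      DirectedOn (· ⊆ ·) K ∧ (⋂₀ K).Nonempty) ∧ (∀ y ∈ ⋃₀ 𝓓, ∃ K ∈ 𝒦, y ∈ ⋃₀ K) ∧
      ∀ p, {K ∈ 𝒦 | p ∈ ⋃₀ K}.Finite := by
    intro 𝓓
    by_cases h : 𝓓 ⊆ B'
    · obtain ⟨𝒦, h𝒦⟩ := key_decomp 𝓓 (hmono 𝓓 h)
      exact ⟨𝒦, fun _ => h𝒦⟩
    · exact ⟨∅, fun h' => absurd h' h⟩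
  choose 𝒦 h𝒦 using hkd
  -- the distinguished point of a node
  have hpt : ∀ J : Set (Set X), ∃ x : Option X, (⋂₀ J).Nonempty → ∃ z ∈ ⋂₀ J, x = some z := by
    intro J
    by_cases h : (⋂₀ J).Nonempty
    · obtain ⟨z, hz⟩ := h
      exact ⟨some z, fun _ => ⟨z, hz, rfl⟩⟩
    · exact ⟨none, fun h' => absurd h' h⟩
  choose pt hptJ using hpt
  let ch : Set (Set X) → Set (Set X) := fun J => {E | E ∈ B' ∧ (∃ D ∈ J, E ⊆ D) ∧ ∀ z, pt J = some z → z ∉ E}
  have hch : ∀ J, ch J ⊆ B' := fun J E hE => hE.1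
  let small : Set (Set X) → Prop := fun J => ∃ u ∈ U, ⋃₀ J ⊆ u
  -- the child relation
  let S : Set (Set X) → Set (Set X) → Prop := fun J K => Node B' J ∧ ¬ small J ∧ K ∈ 𝒦 (ch J)
  let Sp : X → Set (Set X) → Set (Set X) → Prop := fun p J K => S J K ∧ p ∈ ⋃₀ K
  have hSnode : ∀ J K, S J K → Node B' K := by
    rintro J K ⟨hJ, _, hK⟩
    obtain ⟨h1, h2, h3, h4⟩ := (h𝒦 (ch J) (hch J)).1 K hK
    exact ⟨h1.trans (hch J), h2, h3, h4⟩
  have hSsub : ∀ J K, S J K → ⋃₀ K ⊆ ⋃₀ J := by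
    rintro J K ⟨hJ, _, hK⟩ x ⟨E, hE, hx⟩
    obtain ⟨_, ⟨D, hD, hED⟩, _⟩ := ((h𝒦 (ch J) (hch J)).1 K hK).1 hE
    exact ⟨D, hD, hED hx⟩
  -- no infinite branch
  have hwf : ∀ p, WellFounded (fun K J => Sp p J K) := by
    intro p
    rw [wellFounded_iff_isEmpty_descending_chain]
    refine ⟨?_⟩
    rintro ⟨f, hf⟩
    let g : ℕ → Set (Set X) := fun n => f (n+1)
    have hgS : ∀ n, S (g n) (g (n+1)) := fun n => (hf (n+1)).1
    have hgp : ∀ n, p ∈ ⋃₀ g n := fun n => (hf n).2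
    have hgN : ∀ n, Node B' (g n) := fun n => (hgS n).1
    have hgs : ∀ n, ¬ small (g n) := fun n => (hgS n).2.1
    choose z hz hzpt using fun n => hptJ (g n) (hgN n).pt
    have hdesc : ∀ i k, ∀ E ∈ g (i + 1 + k), (∃ D ∈ g (i+1), E ⊆ D) ∧ z i ∉ E := by
      intro i k
      induction k with
      | zero =>
        intro E hE
        refine ⟨⟨E, hE, subset_rfl⟩, ?_⟩
        exact (((h𝒦 (ch (g i)) (hch _)).1 _ (hgS i).2.2).1 hE).2.2 _ (hzpt i)
      | succ k ih =>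
        intro E hE
        obtain ⟨_, ⟨D, hD, hED⟩, _⟩ :=
          ((h𝒦 (ch (g (i+1+k))) (hch _)).1 _ (hgS (i+1+k)).2.2).1 hE
        obtain ⟨⟨D', hD', hDD'⟩, hzD⟩ := ih D hD
        exact ⟨⟨D', hD', hED.trans hDD'⟩, fun h => hzD (hED h)⟩
    have hdesc' : ∀ i k, i < k → ∀ E ∈ g k, z i ∉ E := by
      intro i k hik E hE
      obtain ⟨l, rfl⟩ := Nat.exists_eq_add_of_lt hik
      have : i + l + 1 = i + 1 + l := by omega
      rw [this] at hE
      exact (hdesc i l E hE).2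
    -- choose the sequence of pairwise incomparable members through `p`
    obtain ⟨A, hA, hA'⟩ := exists_seq_of_forall_finset_exists
      (fun a : ℕ × Set X => a.2 ∈ g a.1 ∧ p ∈ a.2) (fun a b => a.1 < b.1 ∧ ¬ b.2 ⊆ a.2) (by
        intro s hs
        let k := s.sup Prod.fst + 1
        -- witnesses
        have hw : ∀ t : Finset (ℕ × Set X), t ⊆ s → ∃ D ∈ g k, p ∈ D ∧ ∀ a ∈ t, ¬ D ⊆ a.2 := by
          intro t
          induction t using Finset.induction_on with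
          | empty =>
            intro _
            obtain ⟨D, hD, hp⟩ := hgp k
            exact ⟨D, hD, hp, by simp⟩
          | insert a t _ ih =>
            intro hts
            obtain ⟨D, hD, hp, hDt⟩ := ih ((Finset.subset_insert _ _).trans hts)
            have ha : a ∈ s := hts (Finset.mem_insert_self _ _)
            obtain ⟨u, hu, hau⟩ := ((hgN a.1).sub (hs a ha).1).2
            have hex : ∃ w ∈ ⋃₀ g k, w ∉ a.2 := by
              by_contra h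
              push Not at h
              exact hgs k ⟨u, hu, fun w hw => hau (h w hw)⟩
            obtain ⟨w, ⟨E, hE, hwE⟩, hwa⟩ := hex
            obtain ⟨D', hD', h1, h2⟩ := (hgN k).dir D hD E hE
            refine ⟨D', hD', h1 hp, ?_⟩
            intro b hb
            rcases Finset.mem_insert.mp hb with rfl | hb
            · exact fun h => hwa (h (h2 hwE))
            · exact fun h => hDt b hb (h1.trans h)
        obtain ⟨D, hD, hp, hDs⟩ := hw s subset_rfl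
        refine ⟨(k, D), ⟨hD, hp⟩, fun a ha => ⟨?_, hDs a ha⟩⟩
        exact Nat.lt_succ_of_le (Finset.le_sup (f := Prod.fst) ha))
    have hnot1 : ∀ m n, m < n → ¬ (A n).2 ⊆ (A m).2 := fun m n h => (hA' m n h).2
    have hnot2 : ∀ m n, m < n → ¬ (A m).2 ⊆ (A n).2 := by
      intro m n h hsub
      exact hdesc' _ _ (hA' m n h).1 _ (hA n).1 (hsub (hz (A m).1 _ (hA m).1))
    have hinj : Function.Injective (fun n => (A n).2) := by
      intro m n hmn
      simp only at hmn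
      rcases lt_trichotomy m n with h | h | h
      · exact absurd hmn.subset (hnot2 m n h)
      · exact h
      · exact absurd hmn.subset (hnot1 n m h)
    obtain ⟨_, ⟨m, rfl⟩, _, ⟨n, rfl⟩, hne, hsub⟩ := hrank (range fun n => (A n).2)
      (by rintro _ ⟨n, rfl⟩; exact ((hgN (A n).1).sub (hA n).1).1)
      (infinite_range_of_injective hinj) ⟨p, by rintro _ ⟨n, rfl⟩; exact (hA n).2⟩
    rcases lt_trichotomy m n with h | h | h
    · exact hnot2 m n h hsub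
    · exact hne (by rw [h])
    · exact hnot1 n m h hsub
  -- final sets
  have hfinal : ∀ J : Set (Set X), ∃ W : Set X, Node B' J → IsOpen W ∧ (∃ u ∈ U, W ⊆ u) ∧
      W ⊆ ⋃₀ J ∧ (small J → W = ⋃₀ J) ∧ (∀ z, pt J = some z → z ∈ W) := by
    intro J
    by_cases hJ : Node B' J
    · obtain ⟨z, hz, hzJ⟩ := hptJ J hJ.pt
      by_cases hs : small J
      · refine ⟨⋃₀ J, fun _ => ⟨isOpen_sUnion fun D hD => hB'o D (hJ.sub hD), hs, subset_rfl,
          fun _ => rfl, ?_⟩⟩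
        intro z' hz'
        rw [hzJ] at hz'
        obtain rfl := Option.some.inj hz'
        obtain ⟨D, hD⟩ := hJ.ne
        exact ⟨D, hD, hz D hD⟩
      · obtain ⟨D, hD⟩ := hJ.ne
        refine ⟨D, fun _ => ⟨hB'o D (hJ.sub hD), (hJ.sub hD).2, fun x hx => ⟨D, hD, hx⟩,
          fun h => absurd h hs, ?_⟩⟩
        intro z' hz'
        rw [hzJ] at hz'
        obtain rfl := Option.some.inj hz'
        exact hz D hD
    · exact ⟨∅, fun h => absurd h hJ⟩
  choose fin hfin using hfinal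
  -- reachable nodes
  let R : Set (Set X) → Prop := fun J => ∃ J₀ ∈ 𝒦 B', Relation.ReflTransGen S J₀ J
  have hroot := h𝒦 B' subset_rfl
  have hRnode : ∀ J, R J → Node B' J := by
    rintro J ⟨J₀, hJ₀, hJ⟩
    have h0 : Node B' J₀ := by
      obtain ⟨h1, h2, h3, h4⟩ := hroot.1 J₀ hJ₀
      exact ⟨h1, h2, h3, h4⟩
    induction hJ with
    | refl => exact h0
    | tail _ h _ => exact hSnode _ _ h
  have hback : ∀ p J₀ J, Relation.ReflTransGen S J₀ J → p ∈ ⋃₀ J →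
      p ∈ ⋃₀ J₀ ∧ Relation.ReflTransGen (Sp p) J₀ J := by
    intro p J₀ J hJ
    induction hJ with
    | refl => exact fun h => ⟨h, Relation.ReflTransGen.refl⟩
    | tail h1 h2 ih =>
      intro hp
      obtain ⟨h3, h4⟩ := ih (hSsub _ _ h2 hp)
      exact ⟨h3, h4.tail ⟨h2, hp⟩⟩
  have hfinch : ∀ p J, {K | Sp p J K}.Finite := by
    intro p J
    refine ((h𝒦 (ch J) (hch J)).2.2 p).subset ?_
    rintro K ⟨⟨_, _, hK⟩, hp⟩
    exact ⟨hK, hp⟩
  have hfindesc : ∀ p J, {K | Relation.ReflTransGen (Sp p) J K}.Finite := by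
    intro p J
    induction J using (hwf p).induction with
    | _ J ih =>
    refine ((finite_singleton J).union ((hfinch p J).biUnion (fun K hK => ih K hK))).subset ?_
    intro L hL
    rcases Relation.ReflTransGen.cases_head hL with rfl | ⟨K, hK, hKL⟩
    · exact Or.inl rfl
    · exact Or.inr (mem_biUnion (show K ∈ {K | Sp p J K} from hK) hKL)
  refine ⟨{v | ∃ J, R J ∧ v = fin J}, ?_, ?_, ?_, ?_⟩
  · rintro _ ⟨J, hJ, rfl⟩
    exact (hfin J (hRnode J hJ)).1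
  · apply subset_antisymm
    · rintro x ⟨_, ⟨J, hJ, rfl⟩, hx⟩
      obtain ⟨u, hu, hJu⟩ := (hfin J (hRnode J hJ)).2.1
      exact ⟨u, hu, hJu hx⟩
    · intro y hy
      rw [← hB'U] at hy
      obtain ⟨J₀, hJ₀, hyJ₀⟩ := hroot.2.1 y hy
      have key : ∀ J, R J → y ∈ ⋃₀ J → y ∈ ⋃₀ {v | ∃ J, R J ∧ v = fin J} := by
        intro J
        induction J using (hwf y).induction with
        | _ J ih =>
        intro hJ hyJ
        have hN := hRnode J hJ
        by_cases hs : small J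
        · exact ⟨fin J, ⟨J, hJ, rfl⟩, by rw [(hfin J hN).2.2.2.1 hs]; exact hyJ⟩
        · obtain ⟨z, hz, hzJ⟩ := hptJ J hN.pt
          by_cases hyz : y = z
          · exact ⟨fin J, ⟨J, hJ, rfl⟩, by rw [hyz]; exact (hfin J hN).2.2.2.2 z hzJ⟩
          · obtain ⟨D, hD, hyD⟩ := hyJ
            -- a member of the base inside `D \ {z}`
            have ho : IsOpen (D \ {z}) := (hB'o D (hN.sub hD)).sdiff isClosed_singleton
            obtain ⟨E, hE, hyE, hED⟩ := hB.exists_subset_of_mem_open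
              (show y ∈ D \ {z} from ⟨hyD, hyz⟩) ho
            have hEch : E ∈ ch J := by
              refine ⟨⟨hE, ?_⟩, ⟨D, hD, hED.trans sdiff_subset⟩, ?_⟩
              · obtain ⟨u, hu, hDu⟩ := (hN.sub hD).2
                exact ⟨u, hu, (hED.trans sdiff_subset).trans hDu⟩
              · intro z' hz' hz'E
                rw [hzJ] at hz'
                obtain rfl := Option.some.inj hz'
                exact (hED hz'E).2 rfl
            obtain ⟨K, hK, hyK⟩ := (h𝒦 (ch J) (hch J)).2.1 y ⟨E, hEch, hyE⟩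
            have hSJK : S J K := ⟨hN, hs, hK⟩
            obtain ⟨J₁, hJ₁, hJ₁J⟩ := hJ
            exact ih K ⟨hSJK, hyK⟩ ⟨J₁, hJ₁, hJ₁J.tail hSJK⟩ hyK
      exact key J₀ ⟨J₀, hJ₀, Relation.ReflTransGen.refl⟩ hyJ₀
  · rintro _ ⟨J, hJ, rfl⟩
    exact (hfin J (hRnode J hJ)).2.1
  · intro p
    have hfin2 : (⋃ J₀ ∈ {J₀ ∈ 𝒦 B' | p ∈ ⋃₀ J₀}, {K | Relation.ReflTransGen (Sp p) J₀ K}).Finite :=
      (hroot.2.2 p).biUnion (fun J₀ _ => hfindesc p J₀)
    refine (hfin2.image fin).subset ?_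
    rintro _ ⟨⟨J, ⟨J₀, hJ₀, hJ⟩, rfl⟩, hp⟩
    have hpJ : p ∈ ⋃₀ J := (hfin J (hRnode J ⟨J₀, hJ₀, hJ⟩)).2.2.1 hp
    obtain ⟨h1, h2⟩ := hback p J₀ J hJ hpJ
    exact ⟨J, mem_biUnion (show J₀ ∈ {J₀ ∈ 𝒦 B' | p ∈ ⋃₀ J₀} from ⟨hJ₀, h1⟩) h2, rfl⟩

end Tree

end Pool.Agent.H865S
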